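import Mathlib

set_option autoImplicit false

namespace Pool.Agent.H50.RatTwo

open Polynomial

/-- Cayley-Hamilton for an endomorphism of an abelian group generated by `r` elements. -/
lemma exists_poly {r : ℕ} {M : Type} [AddCommGroup M] (b : Fin r → M)
    (hb : Submodule.span ℤ (Set.range b) = ⊤) (f : Module.End ℤ M) :
    ∃ p : ℤ[X], p.Monic ∧ p.natDegree = r ∧ aeval f p = 0 := by
  classical
  obtain ⟨A, hA⟩ := Matrix.isRepresentation.toEnd_surjective ℤ b hb f
  refine ⟨A.1.charpoly, A.1.charpoly_monic, ?_, ?_⟩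
  · rw [Matrix.charpoly_natDegree_eq_dim, Fintype.card_fin]
  · rw [← hA, Polynomial.aeval_algHom_apply,
      ← map_zero (Matrix.isRepresentation.toEnd ℤ b hb)]
    congr 1
    ext1
    rw [Polynomial.aeval_subalgebra_coe, Matrix.aeval_self_charpoly, Subalgebra.coe_zero]

/-- The Vandermonde number. -/
noncomputable def vand (r : ℕ) : ℤ :=
  (Matrix.vandermonde (fun k : Fin (r + 1) => (3 : ℤ) ^ (3 ^ (k : ℕ)))).det

lemma vand_ne_zero (r : ℕ) : vand r ≠ 0 := by
  unfold vand
  rw [Matrix.det_vandermonde_ne_zero_iff]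
  intro i j hij
  have h1 : (3 : ℕ) ^ (3 ^ (i : ℕ)) = 3 ^ (3 ^ (j : ℕ)) := by
    have : ((3 : ℤ) ^ (3 ^ (i : ℕ))) = 3 ^ (3 ^ (j : ℕ)) := hij
    exact_mod_cast this
  have h2 := Nat.pow_right_injective (le_refl 2 |>.trans (by norm_num : 2 ≤ 3)) h1
  have h3 := Nat.pow_right_injective (le_refl 2 |>.trans (by norm_num : 2 ≤ 3)) h2
  exact Fin.ext h3

/-- A monic integer polynomial of degree `r` whose values at `3 ^ (3 ^ k)`, `k ≤ r`, are all
divisible by `m` forces `m` to divide the Vandermonde number. -/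
lemma dvd_vand {r : ℕ} {p : ℤ[X]} (hp : p.Monic) (hd : p.natDegree = r) (m : ℤ)
    (h : ∀ k : Fin (r + 1), m ∣ p.eval ((3 : ℤ) ^ (3 ^ (k : ℕ)))) : m ∣ vand r := by
  set V := Matrix.vandermonde (fun k : Fin (r + 1) => (3 : ℤ) ^ (3 ^ (k : ℕ))) with hV
  have h1 : ∀ k : Fin (r + 1), V.mulVec (fun i => p.coeff i) k
      = p.eval ((3 : ℤ) ^ (3 ^ (k : ℕ))) := by
    intro k
    rw [Polynomial.eval_eq_sum_range, hd, ← Fin.sum_univ_eq_sum_range
      (fun i => p.coeff i * ((3 : ℤ) ^ (3 ^ (k : ℕ))) ^ i)]
    simp only [Matrix.mulVec, dotProduct, hV, Matrix.vandermonde_apply]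
    exact Finset.sum_congr rfl fun i _ => mul_comm _ _
  have h2 : V.adjugate.mulVec (V.mulVec (fun i => p.coeff i)) (Fin.last r) = vand r := by
    rw [Matrix.mulVec_mulVec, Matrix.adjugate_mul, Matrix.smul_mulVec, Matrix.one_mulVec]
    have : p.coeff r = 1 := by rw [← hd]; exact hp
    simp [vand, hV, this]
  rw [← h2, Matrix.mulVec]
  refine Finset.dvd_sum fun k _ => Dvd.dvd.mul_left ?_ _
  show m ∣ V.mulVec (fun i => p.coeff i) k
  rw [h1 k]
  exact h k

open Subgroup

/-- In a group in which every element is conjugate to its cube, the elements of an abelian normal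
subgroup generated by `r` elements have order dividing the Vandermonde number. -/
lemma orderOf_dvd_vand {G : Type} [Group G] (h3 : ∀ x : G, IsConj x (x ^ 3))
    (A : Subgroup G) (hAn : A.Normal) (hA : ∀ a ∈ A, ∀ b ∈ A, a * b = b * a) (r : ℕ)
    (b : Fin r → G) (hb : closure (Set.range b) = A) (a : G) (ha : a ∈ A) :
    (orderOf a : ℤ) ∣ vand r := by
  classical
  let _ : CommGroup A := { (inferInstance : Group A) with
    mul_comm := fun x y => Subtype.ext (hA x x.2 y y.2) }
  obtain ⟨g, hg⟩ := isConj_iff.mp (h3 a)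
  obtain ⟨h, hh⟩ := isConj_iff.mp (h3 g)
  -- the conjugation endomorphism
  let φ : A →* A :=
    { toFun := fun x => ⟨g * x * g⁻¹, hAn.conj_mem x x.2 g⟩
      map_one' := by ext; simp
      map_mul' := fun x y => by ext; simp }
  let f : Module.End ℤ (Additive A) := (MonoidHom.toAdditive φ).toIntLinearMap
  have hbA : ∀ i, b i ∈ A := fun i => by
    rw [← hb]; exact subset_closure ⟨i, rfl⟩
  let b' : Fin r → Additive A := fun i => Additive.ofMul ⟨b i, hbA i⟩
  have hcl : closure (Set.range (fun i => (⟨b i, hbA i⟩ : A))) = ⊤ := by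
    apply Subgroup.map_injective A.subtype_injective
    rw [MonoidHom.map_closure, ← Set.range_comp, ← MonoidHom.range_eq_map,
      Subgroup.range_subtype]
    exact hb
  have hb' : Submodule.span ℤ (Set.range b') = ⊤ := by
    rw [eq_top_iff]
    rintro x -
    have hy : x.toMul ∈ closure (Set.range (fun i => (⟨b i, hbA i⟩ : A))) := by
      rw [hcl]; trivial
    have key : ∀ y ∈ closure (Set.range (fun i => (⟨b i, hbA i⟩ : A))),
        Additive.ofMul y ∈ Submodule.span ℤ (Set.range b') := by
      intro y hy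
      induction hy using closure_induction with
      | mem y hy =>
        obtain ⟨i, rfl⟩ := hy
        exact Submodule.subset_span ⟨i, rfl⟩
      | one => exact Submodule.zero_mem _
      | mul y z _ _ hy hz => exact Submodule.add_mem _ hy hz
      | inv y _ hy => exact Submodule.neg_mem _ hy
    exact key _ hy
  obtain ⟨p, hpm, hpd, hp0⟩ := exists_poly b' hb' f
  refine dvd_vand hpm hpd _ fun k => ?_
  -- powers of g
  have hgk : ∀ k : ℕ, h ^ k * g * (h ^ k)⁻¹ = g ^ (3 ^ k) := by
    intro k
    induction k with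
    | zero => simp
    | succ n ih =>
      have : h ^ (n + 1) * g * (h ^ (n + 1))⁻¹ = h * (h ^ n * g * (h ^ n)⁻¹) * h⁻¹ := by
        rw [pow_succ']; group
      rw [this, ih, ← conj_pow, hh, ← pow_mul, pow_succ']
  have hga : ∀ k : ℕ, g ^ k * a * (g ^ k)⁻¹ = a ^ (3 ^ k) := by
    intro k
    induction k with
    | zero => simp
    | succ n ih =>
      have : g ^ (n + 1) * a * (g ^ (n + 1))⁻¹ = g * (g ^ n * a * (g ^ n)⁻¹) * g⁻¹ := by
        rw [pow_succ']; group
      rw [this, ih, ← conj_pow, hg, ← pow_mul, pow_succ']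
  -- the element on which g acts as the power 3 ^ (3 ^ k)
  set c : G := (h ^ (k : ℕ))⁻¹ * a * h ^ (k : ℕ) with hc
  have hcA : c ∈ A := by
    have := hAn.conj_mem a ha (h ^ (k : ℕ))⁻¹
    simpa [hc] using this
  have hco : orderOf c = orderOf a := by
    refine SemiconjBy.orderOf_eq (h ^ (k : ℕ)) ?_
    show h ^ (k : ℕ) * c = a * h ^ (k : ℕ)
    rw [hc]; group
  have hgc : g * c * g⁻¹ = c ^ (3 ^ (3 ^ (k : ℕ))) := by
    have e1 : g * (h ^ (k : ℕ))⁻¹ = (h ^ (k : ℕ))⁻¹ * g ^ (3 ^ (k : ℕ)) := by
      rw [← hgk]; group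
    have e2 : g * c * g⁻¹ =
        (h ^ (k : ℕ))⁻¹ * (g ^ (3 ^ (k : ℕ)) * a * (g ^ (3 ^ (k : ℕ)))⁻¹) * h ^ (k : ℕ) := by
      rw [← hgk, hc]; group
    rw [e2, hga, hc]
    have := conj_pow (i := 3 ^ 3 ^ (k : ℕ)) (a := (h ^ (k : ℕ))⁻¹) (b := a)
    rw [inv_inv] at this
    rw [this]
  have hfc : f (Additive.ofMul ⟨c, hcA⟩)
      = ((3 : ℤ) ^ (3 ^ (k : ℕ))) • (Additive.ofMul (⟨c, hcA⟩ : A)) := by
    have e : (3 : ℤ) ^ (3 ^ (k : ℕ)) = ((3 ^ (3 ^ (k : ℕ)) : ℕ) : ℤ) := by push_cast; rfl
    rw [e, natCast_zsmul, ← ofMul_pow]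
    show Additive.ofMul (φ ⟨c, hcA⟩) = _
    congr 1
    exact Subtype.ext hgc
  have h0 := Module.End.aeval_apply_of_mem_apply_eq_smul (p := p) hfc
  rw [hp0, LinearMap.zero_apply, ← ofMul_zpow] at h0
  have h1 : (⟨c, hcA⟩ : A) ^ (p.eval ((3 : ℤ) ^ (3 ^ (k : ℕ)))) = 1 :=
    (Additive.ofMul.injective h0).symm
  rw [← hco, orderOf_dvd_iff_zpow_eq_one]
  simpa using congrArg Subtype.val h1

/-- The order of an abelian normal subgroup generated by `r` elements. -/
lemma card_abelian_le {G : Type} [Group G] [Finite G] (h3 : ∀ x : G, IsConj x (x ^ 3))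
    (A : Subgroup G) (hAn : A.Normal) (hA : ∀ a ∈ A, ∀ b ∈ A, a * b = b * a) (r : ℕ)
    (b : Fin r → G) (hb : closure (Set.range b) = A) :
    Nat.card A ≤ (vand r).natAbs ^ r := by
  classical
  let _ : CommGroup A := { (inferInstance : Group A) with
    mul_comm := fun x y => Subtype.ext (hA x x.2 y y.2) }
  have hbA : ∀ i, b i ∈ A := fun i => by
    rw [← hb]; exact subset_closure ⟨i, rfl⟩
  have hcl : closure (Set.range (fun i => (⟨b i, hbA i⟩ : A))) = ⊤ := by
    apply Subgroup.map_injective A.subtype_injective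
    rw [MonoidHom.map_closure, ← Set.range_comp, ← MonoidHom.range_eq_map,
      Subgroup.range_subtype]
    exact hb
  have hpos : 0 < (vand r).natAbs := Int.natAbs_pos.mpr (vand_ne_zero r)
  have hexp : ∀ a : A, a ^ (vand r).natAbs = 1 := by
    intro a
    have h1 := orderOf_dvd_vand h3 A hAn hA r b hb a a.2
    have h2 : orderOf (a : G) ∣ (vand r).natAbs := Int.natCast_dvd.mp h1
    rw [Subgroup.orderOf_coe] at h2
    exact orderOf_dvd_iff_pow_eq_one.mp h2
  have hdvd := card_dvd_exponent_pow_rank' A hexp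
  refine (Nat.le_of_dvd (Nat.pos_of_ne_zero (by positivity)) hdvd).trans ?_
  refine Nat.pow_le_pow_right hpos ?_
  have hle : Group.rank A ≤ (Finset.univ.image (fun i => (⟨b i, hbA i⟩ : A))).card :=
    Group.rank_le (by simpa using hcl)
  exact hle.trans (Finset.card_image_le.trans (by simp))

/-- A maximal abelian normal subgroup of a finite `p`-group is self-centralizing. -/
lemma exists_selfCentralizing {G : Type} [Group G] [Finite G] (p : ℕ) [Fact p.Prime]
    (hp : IsPGroup p G) :
    ∃ A : Subgroup G, A.Normal ∧ (∀ a ∈ A, ∀ b ∈ A, a * b = b * a) ∧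
      ∀ x : G, (∀ a ∈ A, x * a = a * x) → x ∈ A := by
  classical
  obtain ⟨A, hAm⟩ := (Set.toFinite {A : Subgroup G | A.Normal ∧
    (∀ a ∈ A, ∀ b ∈ A, a * b = b * a)}).exists_maximal ⟨⊥, by infer_instance, by simp⟩
  obtain ⟨hAn, hA⟩ := hAm.prop
  refine ⟨A, hAn, hA, ?_⟩
  by_contra hcon
  push Not at hcon
  obtain ⟨x₀, hx₀, hx₀A⟩ := hcon
  set C : Subgroup G := centralizer (A : Set G) with hC
  have hCn : C.Normal := by
    rw [hC]; infer_instance
  have hCx : ∀ x, x ∈ C ↔ ∀ a ∈ A, x * a = a * x := by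
    intro x
    rw [hC, mem_centralizer_iff]
    exact ⟨fun h a ha => (h a ha).symm, fun h a ha => (h a ha).symm⟩
  -- a nontrivial central element in the image of C
  let π := QuotientGroup.mk' A
  have hπ : Function.Surjective π := QuotientGroup.mk'_surjective A
  have hD : (C.map π).Normal := hCn.map π hπ
  have hq : IsPGroup p (G ⧸ A) := hp.to_quotient A
  have hne : (C.map π) ≠ ⊥ := by
    intro h
    have : π x₀ ∈ C.map π := mem_map_of_mem π ((hCx x₀).mpr hx₀)
    rw [h, mem_bot] at this
    exact hx₀A ((QuotientGroup.eq_one_iff x₀).mp this)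
  obtain ⟨z, hzD, hzc, hz1⟩ : ∃ z : G ⧸ A, z ∈ C.map π ∧ z ∈ center (G ⧸ A) ∧ z ≠ 1 := by
    have hcard : p ∣ Nat.card (C.map π) := by
      have h1 : IsPGroup p (C.map π) := hq.to_subgroup _
      obtain ⟨n, hn⟩ := IsPGroup.iff_card.mp h1
      rw [hn]
      refine dvd_pow_self p ?_
      rintro rfl
      rw [pow_zero] at hn
      exact hne (Subgroup.card_eq_one.mp hn)
    obtain ⟨z, hz, hz1⟩ := (hq.of_equiv ConjAct.toConjAct).exists_fixed_point_of_prime_dvd_card_of_fixed_point
      (C.map π) hcard (a := 1) (by intro g; exact smul_one g)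
    refine ⟨z, z.2, ?_, ?_⟩
    · rw [mem_center_iff]
      intro g
      have := congrArg Subtype.val (hz (ConjAct.toConjAct g))
      rw [ConjAct.Subgroup.val_conj_smul, ConjAct.smul_def, ConjAct.ofConjAct_toConjAct] at this
      rw [← mul_inv_eq_iff_eq_mul]
      exact this
    · intro h
      exact hz1 (Subtype.ext h.symm)
  obtain ⟨x, hxC, rfl⟩ := hzD
  -- the larger abelian normal subgroup
  let B : Subgroup G := (zpowers (π x)).comap π
  have hBn : B.Normal := by
    have : (zpowers (π x)).Normal := by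
      constructor
      intro n hn g
      have hnc : n ∈ center (G ⧸ A) := (zpowers_le.mpr hzc) hn
      rw [mem_center_iff] at hnc
      rw [hnc g, mul_inv_cancel_right]
      exact hn
    exact this.comap π
  have hBx : ∀ b ∈ B, ∃ n : ℤ, ∃ a ∈ A, b = x ^ n * a := by
    intro b hb
    obtain ⟨n, hn⟩ := mem_zpowers_iff.mp (mem_comap.mp hb)
    refine ⟨n, (x ^ n)⁻¹ * b, ?_, by group⟩
    rw [← map_zpow] at hn
    exact QuotientGroup.eq.mp hn
  have hxa := (hCx x).mp hxC
  have hxna : ∀ (n : ℤ), ∀ a ∈ A, x ^ n * a = a * x ^ n := by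
    intro n a ha
    have : Commute x a := hxa a ha
    exact (this.zpow_left n)
  have hB : ∀ a ∈ B, ∀ b ∈ B, a * b = b * a := by
    intro b hb b' hb'
    obtain ⟨n, a, ha, rfl⟩ := hBx b hb
    obtain ⟨m, a', ha', rfl⟩ := hBx b' hb'
    calc x ^ n * a * (x ^ m * a') = x ^ n * (a * x ^ m) * a' := by group
      _ = x ^ n * (x ^ m * a) * a' := by rw [hxna m a ha]
      _ = (x ^ n * x ^ m) * (a * a') := by group
      _ = (x ^ m * x ^ n) * (a' * a) := by rw [hA a ha a' ha', (zpow_mul_comm x n m)]
      _ = x ^ m * (x ^ n * a') * a := by group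
      _ = x ^ m * (a' * x ^ n) * a := by rw [hxna n a' ha']
      _ = x ^ m * a' * (x ^ n * a) := by group
  have hAB : A ≤ B := by
    intro a ha
    have : π a = 1 := (QuotientGroup.eq_one_iff a).mpr ha
    exact mem_comap.mpr (by rw [this]; exact one_mem _)
  have hBA : B ≤ A := hAm.le_of_ge ⟨hBn, hB⟩ hAB
  exact hz1 ((QuotientGroup.eq_one_iff x).mpr (hBA (mem_comap.mpr (mem_zpowers _))))

/-- The bound for groups whose abelian normal subgroups are all generated by `r` elements. -/
lemma card_le_of_normalRank {G : Type} [Group G] [Finite G] (hp : IsPGroup 2 G)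
    (h3 : ∀ x : G, IsConj x (x ^ 3)) (r : ℕ)
    (hr : ∀ A : Subgroup G, A.Normal → (∀ a ∈ A, ∀ b ∈ A, a * b = b * a) →
      ∃ b : Fin r → G, closure (Set.range b) = A) :
    Nat.card G ≤ ((vand r).natAbs ^ r) * ((vand r).natAbs ^ r) ^ ((vand r).natAbs ^ r) := by
  classical
  have : Fact (Nat.Prime 2) := ⟨Nat.prime_two⟩
  obtain ⟨A, hAn, hA, hAc⟩ := exists_selfCentralizing 2 hp
  obtain ⟨b, hb⟩ := hr A hAn hA
  have hcA := card_abelian_le h3 A hAn hA r b hb
  let φ : G →* MulAut A := MulAut.conjNormal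
  have hker : Nat.card φ.ker ≤ Nat.card A := by
    refine Nat.card_mono (Set.toFinite _) ?_
    intro x hx
    refine hAc x fun a ha => ?_
    have h1 : φ x = 1 := hx
    have h2 := congrArg Subtype.val (DFunLike.congr_fun h1 ⟨a, ha⟩)
    rw [MulAut.conjNormal_apply, MulAut.one_apply, mul_inv_eq_iff_eq_mul] at h2
    exact h2
  have hrange : Nat.card φ.range ≤ (Nat.card A) ^ (Nat.card A) := by
    refine (Nat.card_le_card_of_injective (fun x : φ.range => ((x : MulAut A) : A → A)) ?_).trans
      (le_of_eq Nat.card_fun)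
    intro x y hxy
    exact Subtype.ext (DFunLike.coe_injective hxy)
  have h1 : Nat.card G = Nat.card φ.ker * Nat.card φ.range := by
    rw [← Subgroup.index_ker, Subgroup.card_mul_index]
  rw [h1]
  have hA1 : 0 < Nat.card A := Nat.card_pos
  refine Nat.mul_le_mul (hker.trans hcA) (hrange.trans ?_)
  exact (Nat.pow_le_pow_left hcA _).trans
    (Nat.pow_le_pow_right (hA1.trans_le hcA) hcA)

/-- The factor condition: `K / H` is abelian, or all its subgroups need at most `r` generators. -/
def Good (G : Type) [Group G] (r : ℕ) (H K : Subgroup G) : Prop :=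
  ⁅K, K⁆ ≤ H ∨ ∀ L : Subgroup G, H ≤ L → L ≤ K →
    ∃ s : Finset G, s.card ≤ r ∧ L = H ⊔ closure (s : Set G)

lemma fin_family {G : Type} [Group G] (s : Finset G) (r : ℕ) (hs : s.card ≤ r) :
    ∃ b : Fin r → G, closure (Set.range b) = closure (s : Set G) := by
  classical
  let e := s.equivFin
  refine ⟨fun i => if h : (i : ℕ) < s.card then (e.symm ⟨i, h⟩ : G) else 1, ?_⟩
  apply le_antisymm
  · rw [closure_le]
    rintro _ ⟨i, rfl⟩
    dsimp only
    split_ifs with h
    · exact subset_closure (e.symm ⟨i, h⟩).2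
    · exact one_mem _
  · rw [closure_le]
    intro x hx
    refine subset_closure ⟨⟨(e ⟨x, hx⟩ : ℕ), (e ⟨x, hx⟩).2.trans_le hs⟩, ?_⟩
    simp

/-- The bound, by recursion on the length of the series. -/
noncomputable def bound (d r : ℕ) : ℕ → ℕ
  | 0 => 1
  | k + 1 =>
    max (bound d r k * (vand (bound d r k * d)).natAbs ^ (bound d r k * d))
      (((vand (r + bound d r k)).natAbs ^ (r + bound d r k)) *
        ((vand (r + bound d r k)).natAbs ^ (r + bound d r k)) ^
          ((vand (r + bound d r k)).natAbs ^ (r + bound d r k)))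

lemma series_bound (d r : ℕ) : ∀ (k : ℕ) (G : Type) [Group G] [Finite G], IsPGroup 2 G →
    (∃ s : Finset G, s.card ≤ d ∧ closure (s : Set G) = ⊤) →
    (∀ x : G, IsConj x (x ^ 3)) →
    (∃ N : ℕ → Subgroup G, N 0 = ⊥ ∧ N k = ⊤ ∧
      ∀ i < k, (N i).Normal ∧ N i ≤ N (i + 1) ∧ Good G r (N i) (N (i + 1))) →
    Nat.card G ≤ bound d r k := by
  intro k
  induction k with
  | zero =>
    intro G _ _ _ _ _ ⟨N, h0, h1, _⟩
    rw [h0] at h1
    rw [← Subgroup.card_top, ← h1, Subgroup.card_bot]
    exact le_refl _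
  | succ k ih =>
    intro G _ _ hp hgen h3 ⟨N, hN0, hNk, hN⟩
    classical
    obtain ⟨s, hsd, hs⟩ := hgen
    have hN1 : (N 1).Normal := by
      rcases Nat.eq_zero_or_pos k with hk | hk
      · subst hk
        rw [show N 1 = ⊤ from hNk]
        infer_instance
      · exact (hN 1 (by omega)).1
    let π := QuotientGroup.mk' (N 1)
    have hπ : Function.Surjective π := QuotientGroup.mk'_surjective (N 1)
    have hle1 : ∀ i, i + 1 ≤ k + 1 → N 1 ≤ N (i + 1) := by
      intro i
      induction i with
      | zero => intro _; exact le_refl _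
      | succ i ihi =>
        intro hi
        exact (ihi (by omega)).trans (hN (i + 1) (by omega)).2.1
    -- the quotient is bounded
    have hQ : Nat.card (G ⧸ N 1) ≤ bound d r k := by
      refine ih (G ⧸ N 1) (hp.to_quotient _) ?_ ?_ ?_
      · refine ⟨s.image π, Finset.card_image_le.trans hsd, ?_⟩
        rw [Finset.coe_image, ← MonoidHom.map_closure, hs, ← MonoidHom.range_eq_map,
          MonoidHom.range_eq_top.mpr hπ]
      · intro x
        obtain ⟨y, rfl⟩ := hπ x
        rw [← map_pow]
        exact MonoidHom.map_isConj π (h3 y)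
      · refine ⟨fun i => (N (i + 1)).map π, ?_, ?_, ?_⟩
        · show (N 1).map π = ⊥
          rw [Subgroup.map_eq_bot_iff, QuotientGroup.ker_mk']
        · show (N (k + 1)).map π = ⊤
          rw [hNk, ← MonoidHom.range_eq_map, MonoidHom.range_eq_top.mpr hπ]
        · intro i hi
          obtain ⟨h1, h2, h4⟩ := hN (i + 1) (by omega)
          refine ⟨h1.map π hπ, Subgroup.map_mono h2, ?_⟩
          rcases h4 with h4 | h4
          · left
            show ⁅(N (i + 1 + 1)).map π, (N (i + 1 + 1)).map π⁆ ≤ (N (i + 1)).map π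
            rw [← Subgroup.map_commutator]
            exact Subgroup.map_mono h4
          · right
            intro L hL1 hL2
            have hc : ∀ j, j + 1 ≤ k + 1 → ((N (j + 1)).map π).comap π = N (j + 1) := by
              intro j hj
              rw [Subgroup.comap_map_eq, QuotientGroup.ker_mk']
              exact sup_eq_left.mpr (hle1 j hj)
            obtain ⟨t, ht, hLt⟩ := h4 (L.comap π)
              (by rw [← hc i (by omega)]; exact Subgroup.comap_mono hL1)
              (by
                have := hc (i + 1) (by omega)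
                rw [← this]; exact Subgroup.comap_mono hL2)
            refine ⟨t.image π, Finset.card_image_le.trans ht, ?_⟩
            rw [Finset.coe_image, ← MonoidHom.map_closure, ← Subgroup.map_sup, ← hLt,
              Subgroup.map_comap_eq_self_of_surjective hπ]
    have hidx : Nat.card (N 1) * Nat.card (G ⧸ N 1) = Nat.card G := by
      rw [← Subgroup.card_mul_index (N 1), Subgroup.index]
    set β := bound d r k with hβ
    rcases (hN 0 (by omega)).2.2 with hab | hrk
    · -- abelian bottom factor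
      have hA : ∀ a ∈ N 1, ∀ b ∈ N 1, a * b = b * a := by
        intro a ha b hb
        have h2 := hab (Subgroup.commutator_mem_commutator ha hb)
        rw [hN0, mem_bot, commutatorElement_eq_one_iff_mul_comm] at h2
        exact h2
      have hrank : Group.rank (N 1) ≤ β * d := by
        refine (Subgroup.rank_le_index_mul_rank (N 1)).trans (Nat.mul_le_mul hQ ?_)
        exact (Group.rank_le hs).trans hsd
      obtain ⟨S, hS1, hS2⟩ := Group.rank_spec (N 1)
      have hS3 : closure ((S.image (Subtype.val : N 1 → G) : Finset G) : Set G) = N 1 := by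
        rw [Finset.coe_image]
        have : closure ((Subtype.val : N 1 → G) '' (S : Set (N 1))) = (closure (S : Set (N 1))).map (N 1).subtype := by
          rw [MonoidHom.map_closure]; rfl
        rw [this, hS2, ← MonoidHom.range_eq_map, Subgroup.range_subtype]
      obtain ⟨b, hb⟩ := fin_family (S.image (Subtype.val : N 1 → G)) (β * d)
        (Finset.card_image_le.trans (hS1.le.trans hrank))
      have hcard := card_abelian_le h3 (N 1) hN1 hA (β * d) b (hb.trans hS3)
      rw [← hidx]
      refine le_trans ?_ (le_max_left _ _)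
      rw [mul_comm]
      exact Nat.mul_le_mul hQ hcard
    · -- bottom factor of bounded rank
      refine le_trans (card_le_of_normalRank hp h3 (r + β) ?_) (le_max_right _ _)
      intro A hAn hA
      obtain ⟨t, ht, hAt⟩ := hrk (A ⊓ N 1) (by rw [hN0]; exact bot_le) inf_le_right
      rw [hN0, bot_sup_eq] at hAt
      -- coset representatives
      have hfin : Fintype (G ⧸ N 1) := Fintype.ofFinite _
      let f : G ⧸ N 1 → G := fun q => if h : ∃ a ∈ A, π a = q then h.choose else 1
      have hf : ∀ a ∈ A, f (π a) ∈ A ∧ π (f (π a)) = π a := by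
        intro a ha
        have h : ∃ a' ∈ A, π a' = π a := ⟨a, ha, rfl⟩
        have : f (π a) = h.choose := dif_pos h
        rw [this]
        exact h.choose_spec
      have hfA : ∀ q, f q ∈ A := by
        intro q
        by_cases h : ∃ a ∈ A, π a = q
        · have : f q = h.choose := dif_pos h
          rw [this]; exact h.choose_spec.1
        · have : f q = 1 := dif_neg h
          rw [this]; exact one_mem _
      obtain ⟨b, hb⟩ := fin_family (t ∪ Finset.univ.image f) (r + β) (by
        refine (Finset.card_union_le _ _).trans (Nat.add_le_add ht ?_)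
        refine Finset.card_image_le.trans ?_
        rw [Finset.card_univ, ← Nat.card_eq_fintype_card]
        exact hQ)
      refine ⟨b, hb.trans ?_⟩
      apply le_antisymm
      · rw [closure_le]
        intro x hx
        rw [Finset.coe_union, Finset.coe_image] at hx
        rcases hx with hx | ⟨q, -, rfl⟩
        · have : x ∈ A ⊓ N 1 := by rw [hAt]; exact subset_closure hx
          exact this.1
        · exact hfA q
      · intro a ha
        obtain ⟨h1, h2⟩ := hf a ha
        have h4 : (f (π a))⁻¹ * a ∈ A ⊓ N 1 := by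
          refine ⟨A.mul_mem (A.inv_mem h1) ha, ?_⟩
          exact QuotientGroup.eq.mp h2
        rw [hAt] at h4
        have h5 : (f (π a))⁻¹ * a ∈ closure ((t ∪ Finset.univ.image f : Finset G) : Set G) :=
          closure_mono (by rw [Finset.coe_union]; exact Set.subset_union_left) h4
        have h6 : f (π a) ∈ closure ((t ∪ Finset.univ.image f : Finset G) : Set G) :=
          subset_closure (by
            rw [Finset.coe_union]
            exact Or.inr (Finset.mem_coe.mpr (Finset.mem_image_of_mem f (Finset.mem_univ _))))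
        have := mul_mem h6 h5
        rwa [mul_inv_cancel_left] at this

end Pool.Agent.H50.RatTwo
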