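import Mathlib

/-!
# Real analysis behind the asymptotics of the critical Derrida-Retaux recursion

Sequences `A n = E (m ^ X_n)`, `G n = E (s ^ X_n)`, `q n = P (X_n = 0) ^ m` and tails
`T n K = E (m ^ X_n; X_n ≥ K)`.
-/

set_option autoImplicit false
open Filter Topology

namespace Pool.Agent.H50.DRCore

lemma one_add_pow_le (m : ℕ) {a : ℝ} (ha : 0 ≤ a) :
    (1 + a) ^ m ≤ 1 + m * a + (m * ((m : ℝ) - 1) / 2) * a ^ 2 * (1 + a) ^ m := by
  induction m with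
  | zero => simp
  | succ m ih =>
    have h1 : (1 + a) ^ (m + 1) = (1 + a) ^ m * (1 + a) := pow_succ _ _
    have h2 : (1 + a) ^ m * (1 + a) ≤
        (1 + m * a + (m * ((m : ℝ) - 1) / 2) * a ^ 2 * (1 + a) ^ m) * (1 + a) :=
      mul_le_mul_of_nonneg_right ih (by linarith)
    have h3 : (1 : ℝ) ≤ (1 + a) ^ (m + 1) := one_le_pow₀ (by linarith)
    have h4 : (m : ℝ) * a ^ 2 * 1 ≤ (m : ℝ) * a ^ 2 * (1 + a) ^ (m + 1) :=
      mul_le_mul_of_nonneg_left h3 (by positivity)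
    rw [h1] at h4 ⊢
    push_cast
    linarith

lemma one_sub_pow_le (m : ℕ) {x : ℝ} (h0 : 0 ≤ x) (h1 : x ≤ 1) :
    (1 - x) ^ m ≤ 1 - m * x + (m * ((m : ℝ) - 1) / 2) * x ^ 2 := by
  induction m with
  | zero => simp
  | succ m ih =>
    have h2 : (1 - x) ^ (m + 1) = (1 - x) ^ m * (1 - x) := pow_succ _ _
    have h3 : (1 - x) ^ m * (1 - x) ≤
        (1 - m * x + (m * ((m : ℝ) - 1) / 2) * x ^ 2) * (1 - x) :=
      mul_le_mul_of_nonneg_right ih (by linarith)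
    have h4 : 0 ≤ (m * ((m : ℝ) - 1) / 2) * x ^ 3 := by
      rcases Nat.eq_zero_or_pos m with h | h
      · simp [h]
      · have h5 : (1 : ℝ) ≤ m := by exact_mod_cast h
        have h6 : (0 : ℝ) ≤ (m : ℝ) - 1 := by linarith
        positivity
    rw [h2]
    push_cast
    nlinarith

/-- The tail factor. -/
lemma tail_factor {m : ℕ} (hm : 1 ≤ m) {A T : ℝ} (hA : 0 < A) (hT0 : 0 ≤ T) (hTA : T ≤ A) :
    T * A ^ (m - 1) * (1 - ((m : ℝ) - 1) * T / (2 * A)) ≤ (A ^ m - (A - T) ^ m) / m := by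
  have hm0 : (0 : ℝ) < m := by exact_mod_cast hm
  have h1 := one_sub_pow_le m (x := T / A) (div_nonneg hT0 hA.le) ((div_le_one hA).mpr hTA)
  have h2 : (A - T) ^ m = A ^ m * (1 - T / A) ^ m := by
    rw [← mul_pow]
    congr 1
    field_simp
  have h3 : A ^ m = A ^ (m - 1) * A := by
    rw [← pow_succ]
    congr 1
    omega
  rw [le_div_iff₀ hm0, h2]
  have h4 : A ^ m * (1 - T / A) ^ m ≤
      A ^ m * (1 - m * (T / A) + (m * ((m : ℝ) - 1) / 2) * (T / A) ^ 2) :=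
    mul_le_mul_of_nonneg_left h1 (by positivity)
  have h5 : A ^ m * (1 - m * (T / A) + (m * ((m : ℝ) - 1) / 2) * (T / A) ^ 2) =
      A ^ m - T * A ^ (m - 1) * (1 - ((m : ℝ) - 1) * T / (2 * A)) * m := by
    rw [h3]
    field_simp
    ring
  linarith

/-- The mass at zero. -/
lemma mass_lim {m : ℕ} (hm : 2 ≤ m) {G q : ℕ → ℝ} {s : ℝ} (hs0 : 0 < s) (hsm : s < m)
    (hs1 : s ≠ 1)
    (hGrec : ∀ n, G (n + 1) = G n ^ m / s + (1 - 1 / s) * q n)
    (hlim : Tendsto (fun n : ℕ => (n : ℝ) ^ 2 * (G n - 1)) atTop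
      (𝓝 (4 * m / ((m : ℝ) - 1) ^ 2 * ((s - 1) / (m - s))))) :
    Tendsto (fun n : ℕ => (n : ℝ) ^ 2 * (1 - q n)) atTop (𝓝 (4 * m / ((m : ℝ) - 1) ^ 2)) := by
  set g : ℝ := 4 * m / ((m : ℝ) - 1) ^ 2 * ((s - 1) / (m - s)) with hg
  have hm1 : (m : ℝ) - 1 ≠ 0 := by
    have : (2 : ℝ) ≤ m := by exact_mod_cast hm
    linarith
  have hs1' : s - 1 ≠ 0 := sub_ne_zero.mpr hs1
  have hms : (m : ℝ) - s ≠ 0 := by linarith
  have hinv : Tendsto (fun n : ℕ => 1 / (n : ℝ)) atTop (𝓝 0) :=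
    tendsto_one_div_atTop_nhds_zero_nat
  have hG0 : Tendsto (fun n : ℕ => G n - 1) atTop (𝓝 0) := by
    have h1 := hlim.mul (hinv.mul hinv)
    rw [mul_zero, mul_zero] at h1
    refine h1.congr' ?_
    filter_upwards [eventually_ge_atTop 1] with n hn
    have : (n : ℝ) ≠ 0 := by positivity
    field_simp
  have hG1 : Tendsto G atTop (𝓝 1) := by
    have h1 := hG0.add_const 1
    rw [zero_add] at h1
    refine h1.congr (fun n => by ring)
  have hnext : Tendsto (fun n : ℕ => (n : ℝ) ^ 2 * (G (n + 1) - 1)) atTop (𝓝 g) := by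
    have h1 := hlim.comp (tendsto_add_atTop_nat 1)
    have h2 : Tendsto (fun n : ℕ => ((n : ℝ) / ((n : ℝ) + 1)) ^ 2) atTop (𝓝 (1 ^ 2)) :=
      (tendsto_natCast_div_add_atTop (1 : ℝ)).pow 2
    have h3 := h2.mul h1
    rw [one_pow, one_mul] at h3
    refine h3.congr (fun n => ?_)
    simp only [Function.comp]
    push_cast
    have : (n : ℝ) + 1 ≠ 0 := by positivity
    field_simp
  have hgeom : Tendsto (fun n : ℕ => ∑ i ∈ Finset.range m, G n ^ i) atTop (𝓝 (m : ℝ)) := by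
    have h1 : Tendsto (fun n : ℕ => ∑ i ∈ Finset.range m, G n ^ i) atTop
        (𝓝 (∑ i ∈ Finset.range m, (1 : ℝ) ^ i)) :=
      tendsto_finsetSum _ (fun i _ => hG1.pow i)
    simpa using h1
  have hpow : Tendsto (fun n : ℕ => (n : ℝ) ^ 2 * (G n ^ m - 1)) atTop (𝓝 (g * m)) := by
    refine (hlim.mul hgeom).congr (fun n => ?_)
    rw [← mul_geom_sum, mul_assoc]
  have h1 := ((hpow.sub (hnext.const_mul s)).div_const (s - 1))
  have h2 : (g * m - s * g) / (s - 1) = 4 * m / ((m : ℝ) - 1) ^ 2 := by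
    rw [hg]
    field_simp
  rw [h2] at h1
  refine h1.congr (fun n => ?_)
  rw [hGrec]
  field_simp
  ring

/-- Lower bound for `n * (A n - 1)`. -/
lemma low {m : ℕ} (hm : 2 ≤ m) {A q : ℕ → ℝ} (hA1 : ∀ n, 1 ≤ A n)
    (hArec : ∀ n, A (n + 1) = A n ^ m / m + (1 - 1 / m) * q n)
    (hq : Tendsto (fun n : ℕ => (n : ℝ) ^ 2 * (1 - q n)) atTop (𝓝 (4 * m / ((m : ℝ) - 1) ^ 2)))
    {d : ℝ} (hd0 : 0 < d) (hd : d * ((m : ℝ) - 1) < 2) :
    ∀ᶠ n : ℕ in atTop, d ≤ (n : ℝ) * (A n - 1) := by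
  have hm2 : (2 : ℝ) ≤ m := by exact_mod_cast hm
  have hm1 : (0 : ℝ) < (m : ℝ) - 1 := by linarith
  have hinv : Tendsto (fun n : ℕ => 1 / (n : ℝ)) atTop (𝓝 0) :=
    tendsto_one_div_atTop_nhds_zero_nat
  -- the bracket
  set β : ℕ → ℝ := fun n => d + ((m : ℝ) - 1) / 2 * d ^ 2 * (1 + d / n) ^ m -
    (1 - 1 / m) * ((n : ℝ) ^ 2 * (1 - q n)) with hβ
  have hβlim : Tendsto β atTop (𝓝 (d + ((m : ℝ) - 1) / 2 * d ^ 2 * (1 + 0) ^ m -
      (1 - 1 / m) * (4 * m / ((m : ℝ) - 1) ^ 2))) := by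
    have h1 : Tendsto (fun n : ℕ => d / (n : ℝ)) atTop (𝓝 0) :=
      tendsto_const_div_atTop_nhds_zero_nat d
    exact (((h1.const_add 1).pow m).const_mul _).const_add d |>.sub (hq.const_mul _)
  set κ : ℝ := (4 / ((m : ℝ) - 1) - (d + ((m : ℝ) - 1) / 2 * d ^ 2)) / 2 with hκ
  have hκ0 : 0 < κ := by
    have h1 : d < 2 / ((m : ℝ) - 1) := by rw [lt_div_iff₀ hm1]; exact hd
    have h2 : ((m : ℝ) - 1) / 2 * d ^ 2 < 2 / ((m : ℝ) - 1) := by
      rw [lt_div_iff₀ hm1]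
      nlinarith [mul_pos hd0 hm1]
    have h3 : 4 / ((m : ℝ) - 1) = 2 / ((m : ℝ) - 1) + 2 / ((m : ℝ) - 1) := by ring
    rw [hκ, h3]
    linarith
  have hlimval : d + ((m : ℝ) - 1) / 2 * d ^ 2 * (1 + 0) ^ m -
      (1 - 1 / m) * (4 * m / ((m : ℝ) - 1) ^ 2) = -(2 * κ) := by
    have hm0 : (m : ℝ) ≠ 0 := by linarith
    rw [hκ]
    field_simp
    ring
  rw [hlimval] at hβlim
  have hev : ∀ᶠ n : ℕ in atTop, β n < -κ :=
    hβlim.eventually (gt_mem_nhds (by linarith))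
  obtain ⟨n₀, hn₀⟩ := eventually_atTop.1 hev
  have hharm : Tendsto (fun n : ℕ => ∑ i ∈ Finset.range n, 1 / ((i : ℝ) + 1)) atTop atTop :=
    Real.tendsto_sum_range_one_div_nat_succ_atTop
  rw [eventually_atTop]
  refine ⟨max n₀ 1, fun n₁ hn₁ => ?_⟩
  by_contra hcon
  push Not at hcon
  have hind : ∀ n, n₁ ≤ n → (n : ℝ) * (A n - 1) ≤ d - κ *
      ((∑ i ∈ Finset.range n, 1 / ((i : ℝ) + 1)) - ∑ i ∈ Finset.range n₁, 1 / ((i : ℝ) + 1)) := by
    intro n hn
    induction n, hn using Nat.le_induction with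
    | base => rw [sub_self, mul_zero, sub_zero]; exact hcon.le
    | succ n hn ih =>
      rw [Finset.sum_range_succ]
      have hmono : ∑ i ∈ Finset.range n₁, 1 / ((i : ℝ) + 1) ≤
          ∑ i ∈ Finset.range n, 1 / ((i : ℝ) + 1) := by
        apply Finset.sum_le_sum_of_subset_of_nonneg
        · exact Finset.range_subset_range.2 hn
        · intro i _ _; positivity
      have hn1 : 1 ≤ n := le_trans (le_trans (le_max_right _ _) hn₁) hn
      have hnpos : (0 : ℝ) < n := by exact_mod_cast hn1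
      have hb := hn₀ n (le_trans (le_trans (le_max_left _ _) hn₁) hn)
      set D : ℝ := (n : ℝ) * (A n - 1) with hD
      have hD0 : 0 ≤ D := mul_nonneg hnpos.le (by linarith [hA1 n])
      have hDd : D ≤ d := by nlinarith
      have hAn : A n = 1 + D / n := by rw [hD]; field_simp; ring
      have ha0 : 0 ≤ D / n := by positivity
      have hpow := one_add_pow_le m ha0
      have hpow2 : (1 + D / n) ^ m ≤ (1 + d / n) ^ m := by
        apply pow_le_pow_left₀ (by linarith)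
        have : D / n ≤ d / n := div_le_div_of_nonneg_right hDd hnpos.le
        linarith
      have hm0 : (0 : ℝ) < m := by linarith
      -- bound on the next term
      have hnext : A (n + 1) - 1 ≤ D / n + (((m : ℝ) - 1) / 2 * d ^ 2 * (1 + d / n) ^ m -
          (1 - 1 / m) * ((n : ℝ) ^ 2 * (1 - q n))) / (n : ℝ) ^ 2 := by
        have h1 : A (n + 1) - 1 = ((1 + D / n) ^ m - 1) / m - (1 - 1 / m) * (1 - q n) := by
          rw [hArec, ← hAn]
          field_simp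
          ring
        have h2 : ((1 + D / n) ^ m - 1) / m ≤
            D / n + ((m : ℝ) - 1) / 2 * (D / n) ^ 2 * (1 + D / n) ^ m := by
          rw [div_le_iff₀ hm0]
          have h3 : (D / n + ((m : ℝ) - 1) / 2 * (D / n) ^ 2 * (1 + D / n) ^ m) * m =
              m * (D / n) + (m * ((m : ℝ) - 1) / 2) * (D / n) ^ 2 * (1 + D / n) ^ m := by ring
          rw [h3]
          linarith
        have h4 : ((m : ℝ) - 1) / 2 * (D / n) ^ 2 * (1 + D / n) ^ m ≤
            ((m : ℝ) - 1) / 2 * (d / n) ^ 2 * (1 + d / n) ^ m := by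
          have h5 : (D / n) ^ 2 ≤ (d / n) ^ 2 := by
            apply pow_le_pow_left₀ ha0
            exact div_le_div_of_nonneg_right hDd hnpos.le
          have h6 : (D / n) ^ 2 * (1 + D / n) ^ m ≤ (d / n) ^ 2 * (1 + d / n) ^ m :=
            mul_le_mul h5 hpow2 (by positivity) (by positivity)
          have h7 : (0 : ℝ) ≤ ((m : ℝ) - 1) / 2 := by linarith
          calc ((m : ℝ) - 1) / 2 * (D / n) ^ 2 * (1 + D / n) ^ m
              = ((m : ℝ) - 1) / 2 * ((D / n) ^ 2 * (1 + D / n) ^ m) := by ring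
            _ ≤ ((m : ℝ) - 1) / 2 * ((d / n) ^ 2 * (1 + d / n) ^ m) :=
                mul_le_mul_of_nonneg_left h6 h7
            _ = _ := by ring
        have h8 : (((m : ℝ) - 1) / 2 * d ^ 2 * (1 + d / n) ^ m -
            (1 - 1 / m) * ((n : ℝ) ^ 2 * (1 - q n))) / (n : ℝ) ^ 2 =
            ((m : ℝ) - 1) / 2 * (d / n) ^ 2 * (1 + d / n) ^ m - (1 - 1 / m) * (1 - q n) := by
          field_simp
        rw [h8, h1]
        linarith
      have hkey : ((n + 1 : ℕ) : ℝ) * (A (n + 1) - 1) ≤ D - κ * (1 / ((n : ℝ) + 1)) := by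
        push_cast
        have h1 : ((n : ℝ) + 1) * (A (n + 1) - 1) ≤ ((n : ℝ) + 1) * (D / n +
            (((m : ℝ) - 1) / 2 * d ^ 2 * (1 + d / n) ^ m -
            (1 - 1 / m) * ((n : ℝ) ^ 2 * (1 - q n))) / (n : ℝ) ^ 2) :=
          mul_le_mul_of_nonneg_left hnext (by positivity)
        have h2 : ((n : ℝ) + 1) * (D / n + (((m : ℝ) - 1) / 2 * d ^ 2 * (1 + d / n) ^ m -
            (1 - 1 / m) * ((n : ℝ) ^ 2 * (1 - q n))) / (n : ℝ) ^ 2) =
            D + D / n + ((n : ℝ) + 1) / (n : ℝ) ^ 2 * (β n - d) := by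
          rw [hβ]
          field_simp
          ring
        have h3 : D / n ≤ ((n : ℝ) + 1) / (n : ℝ) ^ 2 * d := by
          have h4 : D / n ≤ d / n := div_le_div_of_nonneg_right hDd hnpos.le
          have h5 : d / n ≤ ((n : ℝ) + 1) / (n : ℝ) ^ 2 * d := by
            rw [div_mul_eq_mul_div, div_le_div_iff₀ hnpos (by positivity)]
            nlinarith [mul_pos hd0 hnpos]
          linarith
        have h6 : ((n : ℝ) + 1) / (n : ℝ) ^ 2 * β n ≤ ((n : ℝ) + 1) / (n : ℝ) ^ 2 * (-κ) :=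
          mul_le_mul_of_nonneg_left hb.le (by positivity)
        have h7 : 1 / ((n : ℝ) + 1) ≤ ((n : ℝ) + 1) / (n : ℝ) ^ 2 := by
          rw [div_le_div_iff₀ (by positivity) (by positivity)]
          nlinarith
        have h8 : κ * (1 / ((n : ℝ) + 1)) ≤ κ * (((n : ℝ) + 1) / (n : ℝ) ^ 2) :=
          mul_le_mul_of_nonneg_left h7 hκ0.le
        have h9 : ((n : ℝ) + 1) / (n : ℝ) ^ 2 * (β n - d) =
          ((n : ℝ) + 1) / (n : ℝ) ^ 2 * β n - ((n : ℝ) + 1) / (n : ℝ) ^ 2 * d := by ring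
        nlinarith
      linarith
  obtain ⟨n, hn1, hn2⟩ := ((hharm.eventually_gt_atTop
    (d / κ + ∑ i ∈ Finset.range n₁, 1 / ((i : ℝ) + 1))).and (eventually_ge_atTop n₁)).exists
  have h1 := hind n hn2
  have h2 : 0 ≤ (n : ℝ) * (A n - 1) := mul_nonneg (Nat.cast_nonneg n) (by linarith [hA1 n])
  have h3 : d / κ < (∑ i ∈ Finset.range n, 1 / ((i : ℝ) + 1)) -
      ∑ i ∈ Finset.range n₁, 1 / ((i : ℝ) + 1) := by linarith
  rw [div_lt_iff₀ hκ0] at h3
  linarith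

/-- `(1 + 1 / i) ^ δ ≤ 1 + δ' / i` for large `i`, if `δ < δ'`. -/
lemma rpow_step {δ δ' : ℝ} (hδ0 : 0 < δ) (hδδ' : δ < δ') :
    ∀ᶠ i : ℕ in atTop, (((i : ℝ) + 1) / i) ^ δ ≤ 1 + δ' / i := by
  have h1 : Tendsto (fun i : ℕ => δ + δ * δ' * (1 / (i : ℝ))) atTop (𝓝 (δ + δ * δ' * 0)) :=
    (tendsto_one_div_atTop_nhds_zero_nat.const_mul _).const_add _
  rw [mul_zero, add_zero] at h1
  have h2 : ∀ᶠ i : ℕ in atTop, δ + δ * δ' * (1 / (i : ℝ)) < δ' :=
    h1.eventually (gt_mem_nhds hδδ')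
  have h3 : Tendsto (fun i : ℕ => δ * (1 / (i : ℝ))) atTop (𝓝 (δ * 0)) :=
    tendsto_one_div_atTop_nhds_zero_nat.const_mul _
  rw [mul_zero] at h3
  have h4 : ∀ᶠ i : ℕ in atTop, δ * (1 / (i : ℝ)) < 1 := h3.eventually (gt_mem_nhds one_pos)
  filter_upwards [h2, h4, eventually_ge_atTop 1] with i hi1 hi2 hi3
  have hi0 : (0 : ℝ) < i := by exact_mod_cast hi3
  have h5 : ((i : ℝ) + 1) / i = 1 + 1 / i := by field_simp
  have h6 : (((i : ℝ) + 1) / i) ^ δ ≤ Real.exp (δ * (1 / i)) := by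
    rw [h5, Real.rpow_def_of_pos (by positivity), mul_comm]
    apply Real.exp_le_exp.mpr
    apply mul_le_mul_of_nonneg_left _ hδ0.le
    have := Real.log_le_sub_one_of_pos (show (0 : ℝ) < 1 + 1 / i by positivity)
    linarith
  refine h6.trans ?_
  have hx0 : 0 < 1 - δ * (1 / (i : ℝ)) := by linarith
  have h7 : Real.exp (δ * (1 / i)) ≤ 1 / (1 - δ * (1 / (i : ℝ))) := by
    rw [le_div_iff₀ hx0]
    have h8 := Real.add_one_le_exp (-(δ * (1 / (i : ℝ))))
    have h9 : Real.exp (δ * (1 / (i : ℝ))) * Real.exp (-(δ * (1 / (i : ℝ)))) = 1 := by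
      rw [← Real.exp_add]
      simp
    have h10 : 1 - δ * (1 / (i : ℝ)) ≤ Real.exp (-(δ * (1 / (i : ℝ)))) := by linarith
    calc Real.exp (δ * (1 / (i : ℝ))) * (1 - δ * (1 / (i : ℝ)))
        ≤ Real.exp (δ * (1 / (i : ℝ))) * Real.exp (-(δ * (1 / (i : ℝ)))) :=
          mul_le_mul_of_nonneg_left h10 (Real.exp_pos _).le
      _ = 1 := h9
  refine h7.trans ?_
  rw [div_le_iff₀ hx0]
  have h8 : (1 + δ' / i) * (1 - δ * (1 / (i : ℝ))) =
      1 + (δ' - (δ + δ * δ' * (1 / (i : ℝ)))) * (1 / i) := by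
    field_simp
    ring
  rw [h8]
  have h9 : 0 ≤ (δ' - (δ + δ * δ' * (1 / (i : ℝ)))) * (1 / i) :=
    mul_nonneg (by linarith) (by positivity)
  linarith

/-- Growth of the product. -/
lemma grow {m : ℕ} (hm : 2 ≤ m) {A : ℕ → ℝ} (hA1 : ∀ n, 1 ≤ A n)
    (hlow : ∀ d : ℝ, 0 < d → d * ((m : ℝ) - 1) < 2 →
      ∀ᶠ n : ℕ in atTop, d ≤ (n : ℝ) * (A n - 1))
    {δ : ℝ} (hδ0 : 0 < δ) (hδ : δ < 2) :
    ∃ c : ℝ, 0 < c ∧ ∀ N : ℕ, 1 ≤ N →
      c * (N : ℝ) ^ δ ≤ ∏ i ∈ Finset.range N, A i ^ (m - 1) := by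
  have hm2 : (2 : ℝ) ≤ m := by exact_mod_cast hm
  have hm1 : (0 : ℝ) < (m : ℝ) - 1 := by linarith
  obtain ⟨δ', h1, h2⟩ := exists_between hδ
  have hd := hlow (δ' / ((m : ℝ) - 1)) (div_pos (by linarith) hm1) (by
    rw [div_mul_cancel₀ _ hm1.ne']
    exact h2)
  obtain ⟨j, hj⟩ := eventually_atTop.1 (hd.and ((rpow_step hδ0 h1).and (eventually_ge_atTop 1)))
  have hj1 : 1 ≤ j := (hj j le_rfl).2.2
  have hjpos : (0 : ℝ) < j := by exact_mod_cast hj1
  have hL1 : ∀ N, 1 ≤ ∏ i ∈ Finset.range N, A i ^ (m - 1) := by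
    intro N
    induction N with
    | zero => simp
    | succ N ih =>
      rw [Finset.prod_range_succ]
      have : 1 ≤ A N ^ (m - 1) := one_le_pow₀ (hA1 N)
      nlinarith
  have hbig : ∀ N, j ≤ N → ((N : ℝ) / j) ^ δ ≤ ∏ i ∈ Finset.range N, A i ^ (m - 1) := by
    intro N hN
    induction N, hN using Nat.le_induction with
    | base => rw [div_self hjpos.ne', Real.one_rpow]; exact hL1 _
    | succ N hN ih =>
      rw [Finset.prod_range_succ]
      obtain ⟨h3, h4, h5⟩ := hj N hN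
      have hNpos : (0 : ℝ) < N := by exact_mod_cast h5
      have h6 : 1 + δ' / N ≤ A N ^ (m - 1) := by
        have h7 : 1 + (δ' / ((m : ℝ) - 1)) / N ≤ A N := by
          have : (δ' / ((m : ℝ) - 1)) / N ≤ A N - 1 := by
            rw [div_le_iff₀ hNpos]
            linarith
          linarith
        have h8 : (-2 : ℝ) ≤ (δ' / ((m : ℝ) - 1)) / N := by
          have : 0 ≤ (δ' / ((m : ℝ) - 1)) / N :=
            div_nonneg (div_nonneg (by linarith) hm1.le) hNpos.le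
          linarith
        have h9 := one_add_mul_le_pow h8 (m - 1)
        have h10 : ((m - 1 : ℕ) : ℝ) = (m : ℝ) - 1 := by
          rw [Nat.cast_sub (by omega)]
          simp
        rw [h10] at h9
        have h11 : ((m : ℝ) - 1) * ((δ' / ((m : ℝ) - 1)) / N) = δ' / N := by field_simp
        rw [h11] at h9
        refine h9.trans (pow_le_pow_left₀ ?_ h7 _)
        have : 0 ≤ (δ' / ((m : ℝ) - 1)) / N :=
          div_nonneg (div_nonneg (by linarith) hm1.le) hNpos.le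
        linarith
      have h12 : (((N + 1 : ℕ) : ℝ) / j) ^ δ = ((N : ℝ) / j) ^ δ * (((N : ℝ) + 1) / N) ^ δ := by
        rw [← Real.mul_rpow (by positivity) (by positivity)]
        congr 1
        push_cast
        field_simp
      rw [h12]
      exact mul_le_mul ih (h4.trans h6) (by positivity) (le_trans zero_le_one (hL1 N))
  refine ⟨((j : ℝ) ^ δ)⁻¹, by positivity, fun N hN => ?_⟩
  rcases le_total j N with h | h
  · have h3 := hbig N h
    rw [Real.div_rpow (by positivity) hjpos.le] at h3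
    rw [inv_mul_eq_div]
    exact h3
  · refine le_trans ?_ (hL1 N)
    rw [inv_mul_eq_div, div_le_one (by positivity)]
    exact Real.rpow_le_rpow (by positivity) (by exact_mod_cast h) hδ0.le

/-- The tail of the initial law. -/
theorem core {m : ℕ} (hm : 2 ≤ m) {A G q : ℕ → ℝ} {T : ℕ → ℕ → ℝ} {s : ℝ}
    (hs0 : 0 < s) (hsm : s < m) (hs1 : s ≠ 1)
    (hA1 : ∀ n, 1 ≤ A n) (hAm : ∀ n, A n ≤ m)
    (hArec : ∀ n, A (n + 1) = A n ^ m / m + (1 - 1 / m) * q n)
    (hGrec : ∀ n, G (n + 1) = G n ^ m / s + (1 - 1 / s) * q n)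
    (hT0 : ∀ n K, 0 ≤ T n K) (hTA : ∀ n K, T n K ≤ A n)
    (hTB : ∀ n K : ℕ, ((m : ℝ) - 1) * (K * T n K) ≤ A n)
    (hTrec : ∀ n K : ℕ, 1 ≤ K →
      A (n + 1) - T (n + 1) K ≤ (A n - T n (K + 1)) ^ m / m + (1 - 1 / m) * q n)
    (hlim : Tendsto (fun n : ℕ => (n : ℝ) ^ 2 * (G n - 1)) atTop
      (𝓝 (4 * m / ((m : ℝ) - 1) ^ 2 * ((s - 1) / (m - s)))))
    {δ : ℝ} (hδ0 : 0 < δ) (hδ : δ < 2) :
    ∃ C : ℝ, 0 < C ∧ ∀ N : ℕ, 1 ≤ N → T 0 (2 * N) ≤ C * (N : ℝ) ^ (-(1 + δ)) := by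
  have hm2 : (2 : ℝ) ≤ m := by exact_mod_cast hm
  have hm0 : (0 : ℝ) < m := by linarith
  have hm1 : (0 : ℝ) < (m : ℝ) - 1 := by linarith
  have hq := mass_lim hm hs0 hsm hs1 hGrec hlim
  obtain ⟨c, hc, hgrow⟩ := grow hm hA1 (fun d h1 h2 => low hm hA1 hArec hq h1 h2) hδ0 hδ
  set L : ℕ → ℝ := fun N => ∏ i ∈ Finset.range N, A i ^ (m - 1) with hL
  have hApos : ∀ n, 0 < A n := fun n => by linarith [hA1 n]
  have hLpos : ∀ N, 0 < L N := fun N => Finset.prod_pos (fun i _ => pow_pos (hApos i) _)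
  have hchain : ∀ N : ℕ, 1 ≤ N → ∀ j, j ≤ N →
      T 0 (2 * N) * (1 - 1 / (2 * (N : ℝ))) ^ j * L j ≤ T j (2 * N - j) := by
    intro N hN j hj
    have hNpos : (0 : ℝ) < N := by exact_mod_cast hN
    have hN1 : (1 : ℝ) ≤ N := by exact_mod_cast hN
    have hfac : 0 ≤ 1 - 1 / (2 * (N : ℝ)) := by
      rw [sub_nonneg, div_le_one (by positivity)]; linarith
    induction j with
    | zero => simp [hL]
    | succ j ih =>
      have ih' := ih (by omega)
      have hK : 2 * N - j = (2 * N - (j + 1)) + 1 := by omega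
      have hS := hTrec j (2 * N - (j + 1)) (by omega)
      rw [← hK] at hS
      have hKN : (N : ℝ) ≤ ((2 * N - j : ℕ) : ℝ) := by exact_mod_cast (by omega : N ≤ 2 * N - j)
      have hb := hTB j (2 * N - j)
      set t : ℝ := T j (2 * N - j) with ht
      have ht0 : 0 ≤ t := hT0 _ _
      have h1 : (N : ℝ) * t ≤ ((2 * N - j : ℕ) : ℝ) * t := mul_le_mul_of_nonneg_right hKN ht0
      have h2 : ((m : ℝ) - 1) * (N * t) ≤ A j :=
        le_trans (mul_le_mul_of_nonneg_left h1 hm1.le) hb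
      have h3 : ((m : ℝ) - 1) * t / (2 * A j) ≤ 1 / (2 * (N : ℝ)) := by
        have := hApos j
        rw [div_le_div_iff₀ (by positivity) (by positivity)]
        nlinarith
      have h4 := tail_factor (m := m) (by omega) (hApos j) ht0 (hTA _ _)
      have h5 : t * A j ^ (m - 1) * (1 - 1 / (2 * (N : ℝ))) ≤
          T (j + 1) (2 * N - (j + 1)) := by
        have h6 : t * A j ^ (m - 1) * (1 - 1 / (2 * (N : ℝ))) ≤
            t * A j ^ (m - 1) * (1 - ((m : ℝ) - 1) * t / (2 * A j)) := by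
          apply mul_le_mul_of_nonneg_left (by linarith)
          have := hApos j
          positivity
        have h7 : (A j ^ m - (A j - t) ^ m) / m ≤ T (j + 1) (2 * N - (j + 1)) := by
          rw [hArec] at hS
          rw [sub_div]
          linarith
        linarith
      refine le_trans ?_ h5
      have hLs : L (j + 1) = L j * A j ^ (m - 1) := Finset.prod_range_succ _ _
      rw [hLs, pow_succ]
      have h8 : 0 ≤ A j ^ (m - 1) * (1 - 1 / (2 * (N : ℝ))) := by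
        have := hApos j
        positivity
      calc T 0 (2 * N) * ((1 - 1 / (2 * (N : ℝ))) ^ j * (1 - 1 / (2 * (N : ℝ)))) *
            (L j * A j ^ (m - 1)) = (T 0 (2 * N) * (1 - 1 / (2 * (N : ℝ))) ^ j * L j) *
            (A j ^ (m - 1) * (1 - 1 / (2 * (N : ℝ)))) := by ring
        _ ≤ t * (A j ^ (m - 1) * (1 - 1 / (2 * (N : ℝ)))) := mul_le_mul_of_nonneg_right ih' h8
        _ = t * A j ^ (m - 1) * (1 - 1 / (2 * (N : ℝ))) := by ring
  refine ⟨4 / c, by positivity, fun N hN => ?_⟩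
  have hNpos : (0 : ℝ) < N := by exact_mod_cast hN
  have hN1 : (1 : ℝ) ≤ N := by exact_mod_cast hN
  have h1 := hchain N hN N le_rfl
  have h2 := hTB N (2 * N - N)
  have h3 : ((2 * N - N : ℕ) : ℝ) = N := by
    rw [show 2 * N - N = N by omega]
  rw [h3] at h2
  have h4 : (1 / 2 : ℝ) ≤ (1 - 1 / (2 * (N : ℝ))) ^ N := by
    have h5 := one_add_mul_le_pow (a := -(1 / (2 * (N : ℝ)))) (by
      have : 1 / (2 * (N : ℝ)) ≤ 1 := by rw [div_le_one (by positivity)]; linarith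
      linarith) N
    have h6 : 1 + (N : ℝ) * -(1 / (2 * (N : ℝ))) = 1 / 2 := by field_simp; ring
    rw [h6] at h5
    rw [sub_eq_add_neg]
    exact h5
  have hT := hT0 0 (2 * N)
  have h5 : T 0 (2 * N) * (1 / 2) * (c * (N : ℝ) ^ δ) ≤ T N (2 * N - N) := by
    refine le_trans ?_ h1
    apply mul_le_mul (mul_le_mul_of_nonneg_left h4 hT) (hgrow N hN) (by positivity)
    exact mul_nonneg hT (le_trans (by norm_num) h4)
  have h6 : ((m : ℝ) - 1) * (N * (T 0 (2 * N) * (1 / 2) * (c * (N : ℝ) ^ δ))) ≤ m :=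
    le_trans (mul_le_mul_of_nonneg_left (mul_le_mul_of_nonneg_left h5 hNpos.le) hm1.le)
      (h2.trans (hAm N))
  have h7 : (m : ℝ) ≤ 2 * ((m : ℝ) - 1) := by linarith
  have h8 : N * (T 0 (2 * N) * (1 / 2) * (c * (N : ℝ) ^ δ)) ≤ 2 := by
    have h9 := h6.trans h7
    rw [mul_comm 2 ((m : ℝ) - 1)] at h9
    exact le_of_mul_le_mul_left h9 hm1
  have h9 : (N : ℝ) ^ (-(1 + δ)) = 1 / (N * (N : ℝ) ^ δ) := by
    rw [Real.rpow_neg hNpos.le, Real.rpow_add hNpos, Real.rpow_one, one_div]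
  rw [h9, div_mul_div_comm, le_div_iff₀ (by positivity)]
  linarith

end Pool.Agent.H50.DRCore
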